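import Pool.Agent.helper7.CSG.SpecJ
import Pool.Agent.helper65.CS.PPO

/-!
# Project csg: (MP_70a088_an, class S), row APO: THE POWER SAVING for one singular value, with deep blocks and divided obstacles (helper8)

Adapted from Pool/Agent/helper65/CS/PPO.lean and Pool/Agent/helper75/PL/APO.lean.
-/

set_option autoImplicit false

open Complex Metric Set Filter Topology MeasureTheory
open Pool.Agent.helper98.ILF
open HY (UD T S hd UN RM)
open PM (DD rm cx pd cr hdf)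
open CSF (Sy it PB VC Lv Om PV hdx FC RL gg bt)

noncomputable section

namespace CSJ

/-- an essentially visible obstacle is visible (the undivided function). -/
theorem APO_und (hLVB : LVB_stmt) (hHSB : HSB_stmt) (hADB : ADB_stmt) (Y : Sy) (hOk : Ok Y) (V : Set ℂ)
    (hLv : Lv Y V) (t : ℕ) (p : ℂ) (hp : p ∈ Om Y V) (T : ℕ) (hT1 : 1 ≤ T) (hTt : T ≤ t) (s : ℂ) (g : ℝ)
    (hEG : EG Y V t p (T, s) g) : g < 1 - pd (VC Y V (t - T) (it Y T p)) (it Y T p) s := by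
  obtain ⟨_, _, hsucc, _, hV⟩ := hLVB Y hOk
  obtain ⟨_, _, _, _, _, _, _, hOm, hcomp, _⟩ := hV V hLv
  have hex : ∃ Φ : ℂ → ℂ, ADM Y V t p (T, s) Φ := by
    by_cases hs : s ∈ VC Y V (t - T) (it Y T p)
    · have h1 := hcomp (t - (T - 1)) (it Y (T - 1) p) (hOm p hp (T - 1) (t - (T - 1))).2
      have h2 := hcomp (t - T) (it Y T p) (hOm p hp T (t - T)).2
      have hmap : MapsTo Y.f (VC Y V (t - (T - 1)) (it Y (T - 1) p)) (VC Y V (t - T) (it Y T p)) := by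
        have h3 := h1.2.2.2.2.2.1 1 (by omega)
        have e1 : t - (T - 1) - 1 = t - T := by omega
        have e2 : it Y 1 (it Y (T - 1) p) = it Y T p := by
          have h4 : it Y (T - 1 + 1) p = Y.f (it Y (T - 1) p) := hsucc (T - 1) p
          have h5 : T - 1 + 1 = T := by omega
          rw [h5] at h4
          rw [h4]
          rfl
        rw [e1, e2] at h3
        exact h3
      exact ⟨_, Or.inr ⟨hs, _, (hHSB Y hOk _ _ h2.1 h1.1 hmap s hs).1, fun w => rfl⟩⟩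
    · exact ⟨fun _ => 1, Or.inl ⟨hs, fun _ => rfl⟩⟩
  obtain ⟨Φ, hΦ⟩ := hex
  obtain ⟨_, _, _, Ψ, hΨ, hΨ0⟩ := hADB Y hOk V hLv t p hp (T, s) hT1 hTt Φ hΦ
  have h := hEG Ψ hΨ
  rw [hΨ0] at h
  exact h

/-- the logarithm of the ratio of the conformal radii. -/
theorem APO_log (C g x y : ℝ) (q : ℕ) (hC : 0 < C) (hg : 0 < g) (hg1 : g ≤ 1) (hx : 0 ≤ x) (hy : 0 ≤ y)
    (h : g ^ q * x ≤ C * y) : 1 + Real.log (x / y) ≤ (1 + |Real.log C| + q) * (1 + Real.log (1 / g)) := by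
  have hl0 : 0 ≤ Real.log (1 / g) := by
    apply Real.log_nonneg
    rw [le_div_iff₀ hg]
    linarith
  have hgq : 0 < g ^ q := pow_pos hg q
  have hr : x / y ≤ C / g ^ q := by
    rcases eq_or_lt_of_le hy with h0 | h0
    · rw [← h0, div_zero]
      positivity
    · rw [div_le_div_iff₀ h0 hgq]
      linarith
  have hr0 : 0 ≤ x / y := div_nonneg hx hy
  have hlog : Real.log (x / y) ≤ |Real.log C| + q * Real.log (1 / g) := by
    rcases eq_or_lt_of_le hr0 with h0 | h0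
    · rw [← h0, Real.log_zero]
      positivity
    · have h1 := Real.log_le_log h0 hr
      rw [Real.log_div hC.ne' hgq.ne', Real.log_pow] at h1
      have h2 : Real.log (1 / g) = - Real.log g := by
        rw [one_div, Real.log_inv]
      rw [h2]
      have h3 := le_abs_self (Real.log C)
      linarith
  have ha : 0 ≤ |Real.log C| := abs_nonneg _
  have hq : (0 : ℝ) ≤ q := Nat.cast_nonneg q
  nlinarith [mul_nonneg ha hl0]

open Classical in
/-- the times at which the obstacle is not a ramified near approach. -/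
theorem APO_two (hAPR : APR_stmt) (hACV : ACV_stmt) (hPSA : PSA_stmt) (hPVT : PVT_stmt) (Y : Sy) (hOk : Ok Y)
    (δ ε₀ : ℝ) (hWW : WW Y δ ε₀) (K δL cL b₀ δ₁ δ₂ : ℝ) (hPRM : PRM K δL cL b₀ δ₁ δ₂) (η c₃ : ℝ) (hη : 0 < η)
    (hc₃ : 0 < c₃) : ∃ (C θ : ℝ) (E : ℕ), 0 < C ∧ 1 / 2 ≤ θ ∧ θ < 1 ∧ ∀ V : Set ℂ, Lv Y V → ∀ (t : ℕ) (p : ℂ),
      SQ Y V δL cL b₀ t p → SFQ Y V t p η c₃ → ∀ (b : ℂ), ∀ c ∈ Y.S, NA Y c → ∀ g s : ℝ, 0 < g → g ≤ 1 → 0 < s → s ≤ 1 →
      ((((Finset.Icc 1 t).filter (fun T => (EG Y V t p (T, c) g ∧ s ≤ 1 - pd (VC Y V 0 b) b (it Y (t - T) c)) ∧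
        ¬(pd (VC Y V 0 (it Y T p)) (it Y T p) c < 1 / 2 ∧ ∃ q ∈ VC Y V T p, pd (VC Y V T p) p q < η ∧
          deriv Y.f (it Y (T - 1) q) = 0))).card : ℕ) : ℝ) ≤ C * g ^ (-θ) * (1 / s) ^ E := by
  obtain ⟨Cr, qr, hCr, hR⟩ := hAPR K δL cL b₀ δ₁ δ₂ hPRM η c₃ hη hc₃
  obtain ⟨Cw, hCw, hW⟩ := hACV Y hOk δ ε₀ hWW K δL cL b₀ δ₁ δ₂ hPRM
  obtain ⟨Ca, e, hCa, he, hA⟩ := hPSA
  obtain ⟨Cv, hCv, hV⟩ := hPVT Y hOk δ ε₀ hWW
  have he0 : (1 : ℝ) ≤ e := by exact_mod_cast he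
  set Cs : ℝ := Cw * (1 + |Real.log Cr| + qr) with hCsdef
  have hCs : 0 < Cs := by
    have : 0 ≤ |Real.log Cr| := abs_nonneg _
    have : (0 : ℝ) ≤ qr := Nat.cast_nonneg _
    positivity
  set θ₁ : ℝ := 1 / (6 * e) with hθ₁
  have hθ₁pos : 0 < θ₁ := by rw [hθ₁]; positivity
  have hθ₁le : θ₁ ≤ 1 / 6 := by
    rw [hθ₁]
    apply div_le_div_of_nonneg_left (by norm_num) (by norm_num) (by linarith)
  set m₀ : ℝ := min 1 (1 / Ca) with hm₀
  have hm₀pos : 0 < m₀ := by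
    rw [hm₀]; exact lt_min one_pos (by positivity)
  refine ⟨2 + 8 * Cs * (1 + 2 / θ₁) + Cv / m₀ ^ 3, 1 - θ₁ / 2, 3, by positivity, by linarith, by linarith, ?_⟩
  intro V hLv t p hSQ hSFQ b c hc hcNA g s hg hg1 hs hs1
  have hp : p ∈ Om Y V := hSQ.om
  set J : Finset ℕ := (Finset.Icc 1 t).filter (fun T => (EG Y V t p (T, c) g ∧ s ≤ 1 - pd (VC Y V 0 b) b (it Y (t - T) c)) ∧
        ¬(pd (VC Y V 0 (it Y T p)) (it Y T p) c < 1 / 2 ∧ ∃ q ∈ VC Y V T p, pd (VC Y V T p) p q < η ∧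
          deriv Y.f (it Y (T - 1) q) = 0)) with hJ
  have hnum := CSF.PPO_num2 Cs Cv m₀ θ₁ g s hCs hCv hm₀pos hθ₁pos hθ₁le hg hg1 hs hs1
  rcases Finset.eq_empty_or_nonempty J with hJe | hJne
  · rw [hJe]
    simp only [Finset.card_empty, Nat.cast_zero]
    positivity
  set T' : ℕ := J.min' hJne with hT'
  have hT'mem : T' ∈ J := Finset.min'_mem _ _
  have hT'J : (1 ≤ T' ∧ T' ≤ t) ∧ g ≤ 1 - pd (VC Y V (t - T') (it Y T' p)) (it Y T' p) c ∧
      g ^ qr * cv Y V p T' ≤ Cr * cv Y V p t := by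
    have := hT'mem
    rw [hJ, Finset.mem_filter, Finset.mem_Icc] at this
    exact ⟨this.1, hR Y hOk V hLv t p hSQ hSFQ c hc g hg hg1 T' this.1.1 this.1.2 this.2.1.1 this.2.2⟩
  have hgp : 0 < g ^ (1 - θ₁) := Real.rpow_pos_of_pos hg _
  have hgp1 : g ^ (1 - θ₁) ≤ 1 := Real.rpow_le_one hg.le hg1 (by linarith)
  set σ : ℝ := s / 8 * g ^ (1 - θ₁) with hσ
  have hσpos : 0 < σ := by rw [hσ]; positivity
  have h8σ : 8 * σ ≤ s := by
    rw [hσ]
    nlinarith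
  have hσ1 : σ ≤ 1 := by linarith
  set J₀ : Finset ℕ := (J.erase T').erase t with hJ₀
  -- members of J other than T' and t
  have hmem : ∀ T ∈ J₀, T' < T ∧ T < t ∧ s ≤ 1 - pd (VC Y V 0 b) b (it Y (t - T) c) := by
    intro T hT
    have h0 := Finset.ne_of_mem_erase hT
    have hT1 := Finset.mem_of_mem_erase hT
    have h1 := Finset.mem_of_mem_erase hT1
    have h2 := Finset.ne_of_mem_erase hT1
    have h3 : T' ≤ T := Finset.min'_le _ _ h1
    have h4 := h1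
    rw [hJ, Finset.mem_filter, Finset.mem_Icc] at h4
    exact ⟨lt_of_le_of_ne h3 (Ne.symm h2), lt_of_le_of_ne h4.1.2 h0, h4.2.1.2⟩
  set A : Finset ℕ := J₀.filter (fun T => σ ≤ 1 - pd (VC Y V 0 b) b (it Y (T' + (t - T)) p)) with hAdef
  set B : Finset ℕ := J₀.filter (fun T => ¬ σ ≤ 1 - pd (VC Y V 0 b) b (it Y (T' + (t - T)) p)) with hBdef
  have hcardAB : A.card + B.card = J₀.card := by
    rw [hAdef, hBdef]
    exact Finset.card_filter_add_card_filter_not (s := J₀)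
      (fun T => σ ≤ 1 - pd (VC Y V 0 b) b (it Y (T' + (t - T)) p))
  have hcardJ : J.card ≤ J₀.card + 2 := by
    have h1 : (J.erase T').card - 1 ≤ J₀.card := Finset.pred_card_le_card_erase
    have h2 : J.card - 1 ≤ (J.erase T').card := Finset.pred_card_le_card_erase
    omega
  -- count of A
  have hAc : (A.card : ℝ) ≤ Cs / σ * (1 + Real.log (1 / g)) := by
    have hinj : A.card = (A.image (fun T => T' + (t - T))).card := by
      rw [Finset.card_image_of_injOn]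
      intro T hT U hU hTU
      have hT1 : T ∈ A := hT
      have hU1 : U ∈ A := hU
      rw [hAdef, Finset.mem_filter] at hT1 hU1
      obtain ⟨h1, h2, h3⟩ := hmem T hT1.1
      obtain ⟨h1', h2', h3'⟩ := hmem U hU1.1
      have hTU' : T' + (t - T) = T' + (t - U) := hTU
      omega
    have h1 : ((A.image (fun T => T' + (t - T))).card : ℝ) ≤
        Cw / σ * (1 + Real.log (cv Y V p T' / cv Y V p t)) := by
      apply hW V hLv t p hSQ T' b σ (A.image (fun T => T' + (t - T))) hT'J.1.2 hσpos hσ1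
      intro v hv
      rw [Finset.mem_image] at hv
      obtain ⟨T, hT1, rfl⟩ := hv
      rw [hAdef, Finset.mem_filter] at hT1
      obtain ⟨h1, h2, h3⟩ := hmem T hT1.1
      exact ⟨by omega, by omega, hT1.2⟩
    have h2 := APO_log Cr g (cv Y V p T') (cv Y V p t) qr hCr hg hg1 (norm_nonneg _) (norm_nonneg _) hT'J.2.2
    rw [hinj]
    calc ((A.image (fun T => T' + (t - T))).card : ℝ) ≤ Cw / σ * (1 + Real.log (cv Y V p T' / cv Y V p t)) := h1
      _ ≤ Cw / σ * ((1 + |Real.log Cr| + qr) * (1 + Real.log (1 / g))) :=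
          mul_le_mul_of_nonneg_left h2 (by positivity)
      _ = Cs / σ * (1 + Real.log (1 / g)) := by rw [hCsdef]; ring
  -- count of B
  set w : ℝ := m₀ * g ^ (1 / 6 : ℝ) with hw
  have hg6 : 0 < g ^ (1 / 6 : ℝ) := Real.rpow_pos_of_pos hg _
  have hg61 : g ^ (1 / 6 : ℝ) ≤ 1 := Real.rpow_le_one hg.le hg1 (by norm_num)
  have hwpos : 0 < w := by rw [hw]; positivity
  have hm₀1 : m₀ ≤ 1 := min_le_left _ _
  have hw1 : w ≤ 1 := by
    rw [hw]
    nlinarith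
  have hratio : g * s / (4 * σ) = 2 * g ^ θ₁ := by
    have h1 : g ^ (1 - θ₁) = g / g ^ θ₁ := by
      rw [Real.rpow_sub hg, Real.rpow_one]
    have h2 : g ^ θ₁ ≠ 0 := (Real.rpow_pos_of_pos hg _).ne'
    rw [hσ, h1]
    field_simp
    ring
  have hpow : g ^ (1 / 6 : ℝ) ≤ (g * s / (4 * σ)) ^ e := by
    rw [hratio, mul_pow]
    have h1 : (g ^ θ₁) ^ e = g ^ (1 / 6 : ℝ) := by
      rw [← Real.rpow_natCast, ← Real.rpow_mul hg.le]
      congr 1
      rw [hθ₁]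
      field_simp
    rw [h1]
    have h2 : (1 : ℝ) ≤ 2 ^ e := one_le_pow₀ (by norm_num)
    nlinarith
  have hcOm : c ∈ Om Y V := fun i => hLv.orb c hc i
  have hBc : (B.card : ℝ) ≤ Cv / (w * s) ^ 3 := by
    have hinj : B.card = (B.image (fun T => t - T)).card := by
      rw [Finset.card_image_of_injOn]
      intro T hT U hU hTU
      have hT1 : T ∈ B := hT
      have hU1 : U ∈ B := hU
      rw [hBdef, Finset.mem_filter] at hT1 hU1
      obtain ⟨h1, h2, h3⟩ := hmem T hT1.1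
      obtain ⟨h1', h2', h3'⟩ := hmem U hU1.1
      have hTU' : t - T = t - U := hTU
      omega
    rw [hinj]
    apply hV V hLv (t - T') c b w s (B.image (fun T => t - T)) hcOm hcNA hwpos hw1 hs hs1
    intro u hu
    rw [Finset.mem_image] at hu
    obtain ⟨T, hT1, rfl⟩ := hu
    rw [hBdef, Finset.mem_filter] at hT1
    obtain ⟨h1, h2, h3⟩ := hmem T hT1.1
    have hlt : 1 - pd (VC Y V 0 b) b (it Y (T' + (t - T)) p) ≤ σ := (not_le.mp hT1.2).le
    have hA' := hA Y hOk V hLv p b c t hp hc T' T g s σ hT'J.1.1 h1 h2.le hg hs hσpos h8σ hT'J.2.1 h3 hlt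
    refine ⟨by omega, ?_, h3⟩
    have hcr : 0 ≤ cr (VC Y V 0 (it Y (t - T) c)) (it Y (t - T) c) := norm_nonneg _
    have h5 : m₀ ≤ 1 / Ca := min_le_right _ _
    calc w * cr (VC Y V 0 (it Y (t - T) c)) (it Y (t - T) c)
        = m₀ * (g ^ (1 / 6 : ℝ) * cr (VC Y V 0 (it Y (t - T) c)) (it Y (t - T) c)) := by rw [hw]; ring
      _ ≤ 1 / Ca * (g ^ (1 / 6 : ℝ) * cr (VC Y V 0 (it Y (t - T) c)) (it Y (t - T) c)) :=
          mul_le_mul_of_nonneg_right h5 (mul_nonneg hg6.le hcr)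
      _ ≤ 1 / Ca * ((g * s / (4 * σ)) ^ e * cr (VC Y V 0 (it Y (t - T) c)) (it Y (t - T) c)) := by
          apply mul_le_mul_of_nonneg_left (mul_le_mul_of_nonneg_right hpow hcr)
          positivity
      _ ≤ 1 / Ca * (Ca * cr (VC Y V ((t - T') - (t - T)) (it Y (t - T) c)) (it Y (t - T) c)) := by
          apply mul_le_mul_of_nonneg_left hA'
          positivity
      _ = cr (VC Y V ((t - T') - (t - T)) (it Y (t - T) c)) (it Y (t - T) c) := by
          field_simp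
  have hJc : (J.card : ℝ) ≤ (A.card : ℝ) + B.card + 2 := by
    rw [← hcardAB] at hcardJ
    exact_mod_cast hcardJ
  calc (J.card : ℝ) ≤ (A.card : ℝ) + B.card + 2 := hJc
    _ ≤ Cs / σ * (1 + Real.log (1 / g)) + Cv / (w * s) ^ 3 + 2 := by linarith
    _ = 2 + Cs / (s / 8 * g ^ (1 - θ₁)) * (1 + Real.log (1 / g)) + Cv / (m₀ * g ^ (1 / 6 : ℝ) * s) ^ 3 := by
        rw [hσ, hw]; ring
    _ ≤ _ := hnum

open Classical in
/-- THE POWER SAVING for one singular value. -/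
theorem APO (hLVB : LVB_stmt) (hHSB : HSB_stmt) (hADB : ADB_stmt) (hAJB : AJB_stmt) (hAPR : APR_stmt) (hACV : ACV_stmt)
    (hPSA : PSA_stmt) (hPVT : PVT_stmt) : APO_stmt := by
  intro Y hOk δ ε₀ hWW K δL cL b₀ δ₁ δ₂ hPRM η c₃ hη hη2 hc₃
  obtain ⟨C₁, hC₁, hJ1⟩ := hAJB K δL cL b₀ δ₁ δ₂ hPRM η hη hη2
  obtain ⟨C₂, θ, E, hC₂, hθ0, hθ1, hJ2⟩ := APO_two hAPR hACV hPSA hPVT Y hOk δ ε₀ hWW K δL cL b₀ δ₁ δ₂ hPRM η c₃ hη hc₃
  refine ⟨C₁ * (1 + 1 / θ) + C₂, θ, E, by positivity, by linarith, hθ1, ?_⟩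
  intro V hLv t p hSQ hSFQ b c hc hcNA g s hg hg1 hs hs1
  have h1 := hJ1 Y hOk V hLv t p hSQ c hc g hg hg1
  have h2 := hJ2 V hLv t p hSQ hSFQ b c hc hcNA g s hg hg1 hs hs1
  have hcard : ((((Finset.Icc 1 t).filter (fun T => EG Y V t p (T, c) g ∧
      s ≤ 1 - pd (VC Y V 0 b) b (it Y (t - T) c))).card : ℕ) : ℝ) ≤
      ((((Finset.Icc 1 t).filter (fun T => g ≤ 1 - pd (VC Y V (t - T) (it Y T p)) (it Y T p) c ∧
        pd (VC Y V 0 (it Y T p)) (it Y T p) c < 1 / 2 ∧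
        ∃ q ∈ VC Y V T p, pd (VC Y V T p) p q < η ∧ deriv Y.f (it Y (T - 1) q) = 0)).card : ℕ) : ℝ) +
      ((((Finset.Icc 1 t).filter (fun T => (EG Y V t p (T, c) g ∧ s ≤ 1 - pd (VC Y V 0 b) b (it Y (t - T) c)) ∧
        ¬(pd (VC Y V 0 (it Y T p)) (it Y T p) c < 1 / 2 ∧ ∃ q ∈ VC Y V T p, pd (VC Y V T p) p q < η ∧
          deriv Y.f (it Y (T - 1) q) = 0))).card : ℕ) : ℝ) := by
    rw [← Nat.cast_add, Nat.cast_le]
    refine le_trans (Finset.card_le_card ?_) (Finset.card_union_le _ _)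
    intro i hi
    rw [Finset.mem_filter, Finset.mem_Icc] at hi
    rw [Finset.mem_union, Finset.mem_filter, Finset.mem_filter, Finset.mem_Icc]
    by_cases h : pd (VC Y V 0 (it Y i p)) (it Y i p) c < 1 / 2 ∧ ∃ q ∈ VC Y V i p, pd (VC Y V i p) p q < η ∧
      deriv Y.f (it Y (i - 1) q) = 0
    · exact Or.inl ⟨hi.1, (APO_und hLVB hHSB hADB Y hOk V hLv t p hSQ.om i hi.1.1 hi.1.2 c g hi.2.1).le, h⟩
    · exact Or.inr ⟨hi.1, hi.2, h⟩
  have hs3 : 1 ≤ (1 / s) := by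
    rw [le_div_iff₀ hs]; linarith
  have hs3' : 1 ≤ (1 / s) ^ E := one_le_pow₀ hs3
  have hθpos : 0 < θ := by linarith
  have hgθ : 1 ≤ g ^ (-θ) := by
    apply Real.one_le_rpow_of_pos_of_le_one_of_nonpos hg hg1
    linarith
  have hlog : 1 + Real.log (1 / g) ≤ (1 + 1 / θ) * g ^ (-θ) := by
    have hl : Real.log (1 / g) ≤ (1 / g) ^ θ / θ := Real.log_le_rpow_div (by positivity) hθpos
    have hl0 : (1 / g) ^ θ = g ^ (-θ) := by
      rw [one_div, Real.inv_rpow hg.le, Real.rpow_neg hg.le]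
    rw [hl0] at hl
    have : g ^ (-θ) / θ = 1 / θ * g ^ (-θ) := by
      field_simp
    rw [this] at hl
    linarith
  have h3 : C₁ * (1 + Real.log (1 / g)) ≤ C₁ * (1 + 1 / θ) * g ^ (-θ) * (1 / s) ^ E := by
    calc C₁ * (1 + Real.log (1 / g)) ≤ C₁ * ((1 + 1 / θ) * g ^ (-θ)) :=
          mul_le_mul_of_nonneg_left hlog hC₁.le
      _ = C₁ * (1 + 1 / θ) * g ^ (-θ) * 1 := by ring
      _ ≤ C₁ * (1 + 1 / θ) * g ^ (-θ) * (1 / s) ^ E := by
          apply mul_le_mul_of_nonneg_left hs3'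
          positivity
  refine hcard.trans ((add_le_add (h1.trans h3) h2).trans (le_of_eq ?_))
  ring

end CSJ
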